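import Mathlib

/-!
# The minimum spanning-tree cycle intersection number (MP_648063_co)

Nu-regular graphs minimise the intersection number among the connected graphs with the same numbers
of vertices and edges.

Proof of the lower bound.  Let `T` be a spanning tree of `H`.  The tree path of a non-tree edge has two
distinct end edges, and two distinct non-tree edges do not share both of them.  Hence, if `y_f` is
the number of non-tree edges having the tree edge `f` as an end edge of their tree path, then at least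
`∑ f, (y_f choose 2)` pairs of tree-cycles meet.  As `∑ f, y_f = 2 ν`, convexity gives the bound
`(n - 1) (q choose 2) + q r`.
-/

set_option autoImplicit false

open SimpleGraph Finset

namespace Pool.Agent.Results.MP_648063_co.NuRegularMinimal

section Defs

variable {V : Type*}

/-- The edge set of the tree-cycle of a non-tree edge `e`: the edge `e` and the edges of the path of
`T` joining the ends of `e`. -/
def treeCycle (T : SimpleGraph V) (e : Sym2 V) : Set (Sym2 V) :=
  {f | f = e ∨ ∃ (u v : V) (p : T.Walk u v), p.IsPath ∧ s(u, v) = e ∧ f ∈ p.edges}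

/-- `∩_T(G)`: the number of unordered pairs of distinct non-tree edges (that is, of distinct
tree-cycles) whose tree-cycles have an edge in common. -/
noncomputable def interT (G T : SimpleGraph V) : ℕ :=
  {P : Finset (Sym2 V) | P.card = 2 ∧ (∀ e ∈ P, e ∈ G.edgeSet ∧ e ∉ T.edgeSet) ∧
    ∀ e ∈ P, ∀ f ∈ P, (treeCycle T e ∩ treeCycle T f).Nonempty}.ncard

/-- `∩(G)`: the minimum of `∩_T(G)` over all spanning trees `T` of `G`. -/
noncomputable def inter (G : SimpleGraph V) : ℕ :=
  sInf {k | ∃ T : SimpleGraph V, T ≤ G ∧ T.IsTree ∧ interT G T = k}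

/-- `G` is nu-regular: it has a universal vertex `u`, and all other vertices have degree `q + 1` or
`q + 2`, where `2 ν = q (n - 1) + r` with `0 ≤ r < n - 1`, `ν = m - n + 1`. -/
def IsNuRegular [Fintype V] (G : SimpleGraph V) : Prop :=
  ∃ (u : V) (q r : ℕ), (∀ v, v ≠ u → G.Adj u v) ∧ r < Fintype.card V - 1 ∧
    2 * ((G.edgeSet.ncard : ℤ) - Fintype.card V + 1) = q * ((Fintype.card V : ℤ) - 1) + r ∧
    ∀ v, v ≠ u → (G.neighborSet v).ncard = q + 1 ∨ (G.neighborSet v).ncard = q + 2

end Defs

section Tree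

variable {V : Type*} {T : SimpleGraph V}

/-- The edge `uw` of a tree separates; only one edge joins the two sides. -/
theorem crossing (hT : T.IsTree) {u w v z : V} (huw : T.Adj u w) (hvz : T.Adj v z)
    (h1 : T.dist w v + 1 = T.dist u v) (h2 : T.dist u z + 1 = T.dist w z) :
    v = w ∧ z = u := by
  classical
  have hconn := hT.connected
  obtain ⟨p, hp⟩ := hconn.exists_walk_length_eq_dist u z
  obtain ⟨r, hr⟩ := hconn.exists_walk_length_eq_dist v w
  have hb : T.IsBridge s(u, w) := isAcyclic_iff_forall_adj_isBridge.mp hT.isAcyclic huw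
  have h3 := (isBridge_iff_forall_walk_mem_edges.mp hb)
  have h4 := h3 (p.append (Walk.cons hvz.symm r))
  rw [Walk.edges_append, Walk.edges_cons, List.mem_append, List.mem_cons] at h4
  rcases h4 with h4 | h4 | h4
  · have h5 : w ∈ p.support := Walk.snd_mem_support_of_mem_edges p h4
    have h6 := dist_le (p.dropUntil w h5)
    have h7 := Walk.length_dropUntil_le_length p h5
    omega
  · rcases Sym2.eq_iff.mp h4 with ⟨h5, h6⟩ | ⟨h5, h6⟩
    · exact ⟨h6.symm, h5.symm⟩
    · subst h5
      subst h6
      rw [dist_comm] at h1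
      simp at h2
  · have h5 : u ∈ r.support := Walk.fst_mem_support_of_mem_edges r h4
    have h6 := dist_le (r.takeUntil u h5)
    have h7 := Walk.length_takeUntil_le_length r h5
    rw [dist_comm (u := v) (v := u)] at h6
    rw [dist_comm (u := v) (v := w)] at hr
    omega

theorem exists_next (hT : T.IsTree) (u v : V) :
    ∃ w, u ≠ v → T.Adj u w ∧ T.dist w v + 1 = T.dist u v := by
  by_cases h : u = v
  · exact ⟨u, fun h' => absurd h h'⟩
  · obtain ⟨p, hp⟩ := hT.connected.exists_walk_length_eq_dist u v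
    cases p with
    | nil => exact absurd rfl h
    | @cons _ w _ e p =>
      refine ⟨w, fun _ => ⟨e, ?_⟩⟩
      rw [Walk.length_cons] at hp
      have h1 := dist_le p
      have h2 : T.dist u v ≤ T.dist u w + T.dist w v := hT.connected.dist_triangle
      have h3 : T.dist u w = 1 := dist_eq_one_iff_adj.mpr e
      omega

/-- The neighbour of `u` towards `v`. -/
noncomputable def nx (hT : T.IsTree) (u v : V) : V := (exists_next hT u v).choose

theorem nx_adj (hT : T.IsTree) {u v : V} (h : u ≠ v) : T.Adj u (nx hT u v) :=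
  ((exists_next hT u v).choose_spec h).1

theorem nx_dist (hT : T.IsTree) {u v : V} (h : u ≠ v) : T.dist (nx hT u v) v + 1 = T.dist u v :=
  ((exists_next hT u v).choose_spec h).2

/-- The first edge of the path from `u` to `v`. -/
noncomputable def fe (hT : T.IsTree) (u v : V) : Sym2 V := s(u, nx hT u v)

theorem fe_mem_edgeSet (hT : T.IsTree) {u v : V} (h : u ≠ v) : fe hT u v ∈ T.edgeSet :=
  nx_adj hT h

theorem fe_mem_treeCycle (hT : T.IsTree) {u v : V} (h : u ≠ v) :
    fe hT u v ∈ treeCycle T s(u, v) := by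
  right
  obtain ⟨p, hp⟩ := hT.connected.exists_walk_length_eq_dist (nx hT u v) v
  refine ⟨u, v, Walk.cons (nx_adj hT h) p, ?_, rfl, ?_⟩
  · apply Walk.isPath_of_length_eq_dist
    rw [Walk.length_cons, hp, nx_dist hT h]
  · rw [Walk.edges_cons]
    exact List.mem_cons_self

theorem fe_ne (hT : T.IsTree) {u v : V} (h : u ≠ v) (hnadj : ¬ T.Adj u v) :
    fe hT u v ≠ fe hT v u := by
  intro he
  rcases Sym2.eq_iff.mp he with ⟨h1, -⟩ | ⟨-, h2⟩
  · exact h h1
  · have := nx_adj hT h
    rw [h2] at this
    exact hnadj this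

/-- Two paths with the same end edges have the same ends. -/
theorem fe_eq (hT : T.IsTree) {u v u' v' : V} (h : u ≠ v) (h' : u' ≠ v') (hn : ¬ T.Adj u v)
    (h1 : fe hT u v = fe hT u' v') (h2 : fe hT v u = fe hT v' u') : s(u, v) = s(u', v') := by
  have a1 := nx_dist hT h
  have a2 := nx_dist hT h.symm
  have a3 := nx_dist hT h'
  have a4 := nx_dist hT h'.symm
  have e1 := dist_comm (G := T) (u := u) (v := v)
  have e2 := dist_comm (G := T) (u := u') (v := v')
  rcases Sym2.eq_iff.mp h1 with ⟨b1, b2⟩ | ⟨b1, b2⟩ <;>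
    rcases Sym2.eq_iff.mp h2 with ⟨c1, c2⟩ | ⟨c1, c2⟩
  · rw [b1, c1]
  · -- `u' = u`, `v' = z`
    rw [← c1, ← b1] at a4
    rw [c2] at a2
    omega
  · -- `u' = w`, `v' = v`
    rw [← b1, ← c1] at a3
    rw [b2] at a1
    omega
  · exfalso
    have k1 : T.dist (nx hT u v) v + 1 = T.dist u v := a1
    have k2 : T.dist u (nx hT v u) + 1 = T.dist (nx hT u v) (nx hT v u) := by
      rw [← b1, ← c2, ← b2] at a3
      exact a3
    have k3 := crossing hT (nx_adj hT h) (nx_adj hT h.symm) k1 k2
    exact hn (k3.1 ▸ nx_adj hT h)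

/-- The two end edges of the tree path of `e`. -/
noncomputable def ends [DecidableEq V] (hT : T.IsTree) : Sym2 V → Finset (Sym2 V) :=
  Sym2.lift ⟨fun u v => {fe hT u v, fe hT v u}, fun _ _ => Finset.pair_comm _ _⟩

theorem ends_mk [DecidableEq V] (hT : T.IsTree) (u v : V) :
    ends hT s(u, v) = {fe hT u v, fe hT v u} := rfl

theorem ends_unique [DecidableEq V] (hT : T.IsTree) {e e' : Sym2 V} (hd : ¬ e.IsDiag)
    (hd' : ¬ e'.IsDiag) (he : e ∉ T.edgeSet) {f g : Sym2 V} (hfg : f ≠ g)
    (h1 : f ∈ ends hT e) (h2 : g ∈ ends hT e) (h3 : f ∈ ends hT e') (h4 : g ∈ ends hT e') :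
    e = e' := by
  induction e with | _ u v
  induction e' with | _ u' v'
  rw [Sym2.mk_isDiag_iff] at hd hd'
  rw [mem_edgeSet] at he
  rw [ends_mk, mem_insert, mem_singleton] at h1 h2 h3 h4
  have k1 := fun (h1 : fe hT u v = fe hT u' v') (h2 : fe hT v u = fe hT v' u') =>
    fe_eq hT hd hd' he h1 h2
  have k2 := fun (h1 : fe hT u v = fe hT v' u') (h2 : fe hT v u = fe hT u' v') =>
    fe_eq hT hd (Ne.symm hd') he h1 h2
  rw [Sym2.eq_swap (a := v') (b := u')] at k2
  grind

end Tree

/-- `2 (y choose 2) = y (y - 1)`. -/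
theorem two_choose (y : ℕ) : (2 * (y.choose 2 : ℤ)) = y * (y - 1) := by
  induction y with
  | zero => simp
  | succ y ih =>
    rw [Nat.choose_succ_succ' y 1]
    push_cast
    rw [Nat.choose_one_right, mul_add, ih]
    ring

section Lower

variable {V : Type*} [Fintype V] {H T : SimpleGraph V}

theorem lower (hTH : T ≤ H) (hT : T.IsTree) (q : ℕ) :
    ((Fintype.card V : ℤ) - 1) * (q * (q - 1)) +
      2 * q * (2 * ((H.edgeSet.ncard : ℤ) - Fintype.card V + 1) - q * ((Fintype.card V : ℤ) - 1)) ≤
      2 * (interT H T : ℤ) := by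
  classical
  let N : Finset (Sym2 V) := H.edgeFinset \ T.edgeFinset
  have hNe : ∀ e ∈ N, e ∈ H.edgeSet ∧ e ∉ T.edgeSet := by
    intro e he
    simpa [N] using he
  have hNd : ∀ e ∈ N, ¬ e.IsDiag := fun e he => H.not_isDiag_of_mem_edgeSet (hNe e he).1
  have hTcard : T.edgeFinset.card + 1 = Fintype.card V := hT.card_edgeFinset
  have hHcard : H.edgeSet.ncard = H.edgeFinset.card := by
    rw [← coe_edgeFinset, Set.ncard_coe_finset]
  have hsub : T.edgeFinset ⊆ H.edgeFinset := edgeFinset_subset_edgeFinset.mpr hTH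
  have hNcard : N.card + T.edgeFinset.card = H.edgeFinset.card := by
    rw [card_sdiff_of_subset hsub]
    have := card_le_card hsub
    omega
  have hends2 : ∀ e ∈ N, (ends hT e).card = 2 := by
    intro e he
    have h1 := hNd e he
    have h2 := (hNe e he).2
    induction e with | _ u v
    rw [Sym2.mk_isDiag_iff] at h1
    rw [mem_edgeSet] at h2
    rw [ends_mk, card_pair (fe_ne hT h1 h2)]
  have hendsT : ∀ e ∈ N, ends hT e ⊆ T.edgeFinset := by
    intro e he
    have h1 := hNd e he
    induction e with | _ u v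
    rw [Sym2.mk_isDiag_iff] at h1
    intro f hf
    rw [ends_mk, mem_insert, mem_singleton] at hf
    rw [mem_edgeFinset]
    rcases hf with rfl | rfl
    · exact fe_mem_edgeSet hT h1
    · exact fe_mem_edgeSet hT (Ne.symm h1)
  have hendsC : ∀ e ∈ N, ∀ f ∈ ends hT e, f ∈ treeCycle T e := by
    intro e he f hf
    have h1 := hNd e he
    induction e with | _ u v
    rw [Sym2.mk_isDiag_iff] at h1
    rw [ends_mk, mem_insert, mem_singleton] at hf
    rcases hf with rfl | rfl
    · exact fe_mem_treeCycle hT h1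
    · rw [Sym2.eq_swap]
      exact fe_mem_treeCycle hT (Ne.symm h1)
  let y : Sym2 V → ℕ := fun f => (N.filter fun e => f ∈ ends hT e).card
  -- double counting
  have hsum : ∑ f ∈ T.edgeFinset, y f = 2 * N.card := by
    have h1 : ∀ f, y f = ∑ e ∈ N, if f ∈ ends hT e then 1 else 0 := fun f => card_filter _ _
    simp_rw [h1]
    rw [sum_comm, mul_comm, ← smul_eq_mul, ← sum_const]
    refine sum_congr rfl fun e he => ?_
    rw [← card_filter, filter_mem_eq_inter, inter_eq_right.mpr (hendsT e he), hends2 e he]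
  -- the pairs
  let B : Finset (Finset (Sym2 V)) := T.edgeFinset.biUnion fun f =>
    (N.filter fun e => f ∈ ends hT e).powersetCard 2
  have hBcard : B.card = ∑ f ∈ T.edgeFinset, (y f).choose 2 := by
    rw [card_biUnion]
    · exact sum_congr rfl fun f _ => card_powersetCard _ _
    · intro f _ g _ hfg
      rw [Function.onFun, Finset.disjoint_left]
      intro P hP hP'
      rw [mem_powersetCard] at hP hP'
      obtain ⟨e, e', hee, rfl⟩ := card_eq_two.mp hP.2
      have m1 := mem_filter.mp (hP.1 (mem_insert_self e _))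
      have m2 := mem_filter.mp (hP'.1 (mem_insert_self e _))
      have m3 := mem_filter.mp (hP.1 (mem_insert_of_mem (mem_singleton_self e')))
      have m4 := mem_filter.mp (hP'.1 (mem_insert_of_mem (mem_singleton_self e')))
      exact hee (ends_unique hT (hNd e m1.1) (hNd e' m3.1) (hNe e m1.1).2 hfg m1.2 m2.2 m3.2 m4.2)
  have hBle : B.card ≤ interT H T := by
    rw [← Set.ncard_coe_finset, interT]
    refine Set.ncard_le_ncard ?_ (Set.toFinite _)
    intro P hP
    rw [mem_coe, mem_biUnion] at hP
    obtain ⟨f, -, hP⟩ := hP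
    rw [mem_powersetCard] at hP
    refine ⟨hP.2, fun e he => hNe e (mem_filter.mp (hP.1 he)).1, fun e he e' he' => ?_⟩
    have m1 := mem_filter.mp (hP.1 he)
    have m2 := mem_filter.mp (hP.1 he')
    exact ⟨f, hendsC e m1.1 f m1.2, hendsC e' m2.1 f m2.2⟩
  -- convexity
  have hconv : ∀ z : ℕ, (q * (q - 1) + 2 * q * ((z : ℤ) - q) : ℤ) ≤ 2 * (z.choose 2 : ℤ) := by
    intro z
    rw [two_choose]
    rcases le_or_gt (z : ℤ) q with h | h
    · nlinarith
    · have : (0 : ℤ) ≤ (z - q) * (z - q - 1) := mul_nonneg (by omega) (by omega)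
      nlinarith
  have hT1 : (T.edgeFinset.card : ℤ) = (Fintype.card V : ℤ) - 1 := by
    have : ((T.edgeFinset.card + 1 : ℕ) : ℤ) = Fintype.card V := by exact_mod_cast hTcard
    push_cast at this
    linarith
  have hN1 : (N.card : ℤ) = (H.edgeSet.ncard : ℤ) - Fintype.card V + 1 := by
    have : ((N.card + T.edgeFinset.card : ℕ) : ℤ) = H.edgeSet.ncard := by
      rw [hHcard]
      exact_mod_cast hNcard
    push_cast at this
    linarith
  have hsum' : (∑ f ∈ T.edgeFinset, (y f : ℤ)) = 2 * N.card := by exact_mod_cast hsum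
  calc ((Fintype.card V : ℤ) - 1) * (q * (q - 1)) +
      2 * q * (2 * ((H.edgeSet.ncard : ℤ) - Fintype.card V + 1) - q * ((Fintype.card V : ℤ) - 1))
      = ∑ f ∈ T.edgeFinset, (q * (q - 1) + 2 * q * ((y f : ℤ) - q) : ℤ) := by
        have h1 : ∀ f, (q * (q - 1) + 2 * q * ((y f : ℤ) - q) : ℤ) =
            (q * (q - 1) - 2 * q * q) + 2 * q * (y f : ℤ) := fun f => by ring
        simp_rw [h1]
        rw [sum_add_distrib, ← mul_sum, hsum', sum_const, nsmul_eq_mul, hT1, hN1]
        ring
    _ ≤ ∑ f ∈ T.edgeFinset, 2 * ((y f).choose 2 : ℤ) := sum_le_sum fun f _ => hconv _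
    _ = 2 * (B.card : ℤ) := by
        rw [hBcard, ← mul_sum]
        push_cast
        rfl
    _ ≤ 2 * (interT H T : ℤ) := by
        have : (B.card : ℤ) ≤ interT H T := by exact_mod_cast hBle
        linarith

end Lower

section Upper

variable {V : Type*} [Fintype V] {G : SimpleGraph V}

/-- The edges of the paths of a star. -/
theorem star_path {c : V} {a b : V} (ha : a ≠ c) (hb : b ≠ c) (p : (starGraph c).Walk a b)
    (hp : p.IsPath) : ∀ f ∈ p.edges, f = s(a, c) ∨ f = s(b, c) := by
  intro f hf
  cases p with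
  | nil => simp at hf
  | @cons _ w _ e1 p =>
    rw [starGraph_adj] at e1
    have hw : w = c := e1.2.resolve_left ha
    subst hw
    rw [Walk.edges_cons, List.mem_cons] at hf
    rcases hf with rfl | hf
    · left
      rfl
    · cases p with
      | nil => exact absurd rfl hb
      | @cons _ x _ e2 p =>
        rw [Walk.edges_cons, List.mem_cons] at hf
        rw [Walk.cons_isPath_iff, Walk.cons_isPath_iff] at hp
        have hxw : x ≠ w := (starGraph_adj.mp e2).1.symm
        cases p with
        | nil =>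
          rw [Walk.edges_nil] at hf
          simp only [List.not_mem_nil, or_false] at hf
          right
          rw [hf, Sym2.eq_swap]
        | @cons _ y _ e3 p =>
          have hy : y = w := (starGraph_adj.mp e3).2.resolve_left hxw
          subst hy
          exact absurd (by simp) hp.1.2

/-- Elements of the tree-cycles of a star. -/
theorem star_cycle {c : V} {e f : Sym2 V} (hc : c ∉ e) (hf : f ∈ treeCycle (starGraph c) e) :
    f = e ∨ ∃ a ∈ e, f = s(a, c) := by
  rcases hf with hf | ⟨u, v, p, hp, rfl, hf⟩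
  · exact Or.inl hf
  · rw [Sym2.mem_iff, not_or] at hc
    rcases star_path (Ne.symm hc.1) (Ne.symm hc.2) p hp f hf with h | h
    · exact Or.inr ⟨u, by simp, h⟩
    · exact Or.inr ⟨v, by simp, h⟩

theorem upper {c : V} (hc : ∀ v, v ≠ c → G.Adj c v) {q : ℕ}
    (hdeg : ∀ v, v ≠ c → (G.neighborSet v).ncard = q + 1 ∨ (G.neighborSet v).ncard = q + 2) :
    2 * (inter G : ℤ) ≤ ((Fintype.card V : ℤ) - 1) * (q * (q - 1)) +
      2 * q * (2 * ((G.edgeSet.ncard : ℤ) - Fintype.card V + 1) -
        q * ((Fintype.card V : ℤ) - 1)) := by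
  classical
  have hdeg' : ∀ v, v ≠ c → G.degree v = q + 1 ∨ G.degree v = q + 2 := by
    intro v hv
    have := hdeg v hv
    rwa [← coe_neighborFinset, Set.ncard_coe_finset, card_neighborFinset_eq_degree] at this
  have hle : starGraph c ≤ G := by
    intro a b hab
    rw [starGraph_adj] at hab
    rcases hab.2 with rfl | rfl
    · exact hc b hab.1.symm
    · exact (hc a hab.1).symm
  have h1 : inter G ≤ interT G (starGraph c) :=
    Nat.sInf_le ⟨starGraph c, hle, isTree_starGraph c, rfl⟩
  let N : Finset (Sym2 V) := G.edgeFinset \ (starGraph c).edgeFinset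
  have hNc : ∀ e ∈ N, c ∉ e := by
    intro e he hce
    simp only [N, mem_sdiff, mem_edgeFinset] at he
    apply he.2
    induction e with | _ u v
    rw [mem_edgeSet] at he ⊢
    rw [starGraph_adj]
    refine ⟨he.1.ne, ?_⟩
    rw [Sym2.mem_iff] at hce
    rcases hce with h | h
    · exact Or.inl h.symm
    · exact Or.inr h.symm
  let B : Finset (Finset (Sym2 V)) := (univ.erase c).biUnion fun v =>
    (N.filter fun e => v ∈ e).powersetCard 2
  have hcard : ∀ v ∈ univ.erase c, (N.filter fun e => v ∈ e).card ≤ G.degree v - 1 := by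
    intro v hv
    have hvc : v ≠ c := (mem_erase.mp hv).1
    have hsub : (N.filter fun e => v ∈ e) ⊆ (G.incidenceFinset v).erase s(v, c) := by
      intro e he
      rw [mem_filter] at he
      rw [mem_erase, mem_incidenceFinset]
      refine ⟨?_, ?_, he.2⟩
      · rintro rfl
        exact hNc _ he.1 (by simp)
      · have := he.1
        simp only [N, mem_sdiff, mem_edgeFinset] at this
        exact this.1
    have h2 := card_le_card hsub
    rwa [card_erase_of_mem, card_incidenceFinset_eq_degree] at h2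
    rw [mem_incidenceFinset, mk'_mem_incidenceSet_left_iff]
    exact (hc v hvc).symm
  have hIB : interT G (starGraph c) ≤ B.card := by
    rw [← Set.ncard_coe_finset, interT]
    refine Set.ncard_le_ncard ?_ (Set.toFinite _)
    rintro P ⟨hP2, hP, hP'⟩
    obtain ⟨e, e', hee, rfl⟩ := card_eq_two.mp hP2
    have he := hP e (by simp)
    have he' := hP e' (by simp)
    have heN : e ∈ N := by simpa [N] using he
    have heN' : e' ∈ N := by simpa [N] using he'
    obtain ⟨f, hf, hf'⟩ := hP' e (by simp) e' (by simp)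
    have hfe := star_cycle (hNc e heN) hf
    have hfe' := star_cycle (hNc e' heN') hf'
    obtain ⟨v, hv, hv'⟩ : ∃ v, v ∈ e ∧ v ∈ e' := by
      rcases hfe with rfl | ⟨a, ha, rfl⟩
      · rcases hfe' with rfl | ⟨b, hb, rfl⟩
        · exact absurd rfl hee
        · exact absurd (by simp) (hNc _ heN)
      · rcases hfe' with rfl | ⟨b, hb, hab⟩
        · exact absurd (by simp) (hNc _ heN')
        · rcases Sym2.eq_iff.mp hab with ⟨rfl, -⟩ | ⟨h, -⟩
          · exact ⟨a, ha, hb⟩
          · exact absurd (h ▸ ha) (hNc _ heN)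
    rw [mem_coe, mem_biUnion]
    refine ⟨v, ?_, ?_⟩
    · rw [mem_erase]
      refine ⟨?_, mem_univ _⟩
      rintro rfl
      exact hNc _ heN hv
    · rw [mem_powersetCard]
      refine ⟨?_, hP2⟩
      intro x hx
      rw [mem_filter]
      rw [mem_insert, mem_singleton] at hx
      rcases hx with rfl | rfl
      · exact ⟨heN, hv⟩
      · exact ⟨heN', hv'⟩
  have hB : B.card ≤ ∑ v ∈ univ.erase c, (G.degree v - 1).choose 2 := by
    refine card_biUnion_le.trans (sum_le_sum fun v hv => ?_)
    rw [card_powersetCard]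
    exact Nat.choose_le_choose 2 (hcard v hv)
  -- arithmetic
  have hval : ∀ v ∈ univ.erase c, (2 * ((G.degree v - 1).choose 2 : ℤ)) =
      (q * (q - 1) - 2 * q * q - 2 * q) + 2 * q * (G.degree v : ℤ) := by
    intro v hv
    rw [two_choose]
    rcases hdeg' v (mem_erase.mp hv).1 with h | h
    · rw [h, Nat.add_sub_cancel]
      push_cast
      ring
    · rw [h, show q + 2 - 1 = q + 1 by omega]
      push_cast
      ring
  have hdc : G.degree c = Fintype.card V - 1 := by
    rw [← card_neighborFinset_eq_degree]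
    have : G.neighborFinset c = univ.erase c := by
      ext v
      rw [mem_neighborFinset, mem_erase]
      exact ⟨fun h => ⟨h.ne', mem_univ _⟩, fun h => hc v h.1⟩
    rw [this, card_erase_of_mem (mem_univ _), card_univ]
  have hV1 : 1 ≤ Fintype.card V := Fintype.card_pos_iff.mpr ⟨c⟩
  have hsum := G.sum_degrees_eq_twice_card_edges
  rw [← add_sum_erase univ _ (mem_univ c), hdc] at hsum
  have hE : G.edgeSet.ncard = G.edgeFinset.card := by
    rw [← coe_edgeFinset, Set.ncard_coe_finset]
  have hsum' : (∑ v ∈ univ.erase c, (G.degree v : ℤ)) =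
      2 * (G.edgeSet.ncard : ℤ) - ((Fintype.card V : ℤ) - 1) := by
    have h3 : (((Fintype.card V - 1) + ∑ v ∈ univ.erase c, G.degree v : ℕ) : ℤ) =
        (2 * G.edgeFinset.card : ℕ) := by exact_mod_cast hsum
    rw [hE]
    push_cast [Nat.cast_sub hV1] at h3
    linarith
  have hcardE : (((univ : Finset V).erase c).card : ℤ) = (Fintype.card V : ℤ) - 1 := by
    rw [card_erase_of_mem (mem_univ _), card_univ]
    push_cast [Nat.cast_sub hV1]
    ring
  have h4 : (2 * (inter G : ℤ)) ≤ 2 * ∑ v ∈ univ.erase c, ((G.degree v - 1).choose 2 : ℤ) := by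
    have : (inter G : ℤ) ≤ ((∑ v ∈ univ.erase c, (G.degree v - 1).choose 2 : ℕ) : ℤ) := by
      exact_mod_cast h1.trans (hIB.trans hB)
    push_cast at this
    linarith
  refine h4.trans (le_of_eq ?_)
  rw [mul_sum, sum_congr rfl hval, sum_add_distrib, ← mul_sum, hsum', sum_const, nsmul_eq_mul,
    hcardE]
  ring

end Upper

/-- If `G` is nu-regular and `H` is a connected graph with the same numbers of vertices and edges,
then `∩(G) ≤ ∩(H)`. -/
theorem result {V W : Type} [Fintype V] [Fintype W] (G : SimpleGraph V) (H : SimpleGraph W)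
    (hG : IsNuRegular G) (hH : H.Connected) (hV : Fintype.card W = Fintype.card V)
    (hE : H.edgeSet.ncard = G.edgeSet.ncard) : inter G ≤ inter H := by
  obtain ⟨c, q, r, hc, -, -, hdeg⟩ := hG
  have h1 := upper hc hdeg
  obtain ⟨T, hTH, hT, hk⟩ : ∃ T : SimpleGraph W, T ≤ H ∧ T.IsTree ∧ interT H T = inter H := by
    obtain ⟨T, hTH, hT⟩ := hH.exists_isTree_le
    exact Nat.sInf_mem (s := {k | ∃ T : SimpleGraph W, T ≤ H ∧ T.IsTree ∧ interT H T = k})
      ⟨_, T, hTH, hT, rfl⟩
  have h2 := lower hTH hT q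
  rw [hk, hV, hE] at h2
  have h3 := h1.trans h2
  omega

end Pool.Agent.Results.MP_648063_co.NuRegularMinimal
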